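import Pool.Agent.Helper19.Un.D4Stmts

set_option autoImplicit false

/-!
# GRAM: point configurations in the root lattice `D₄`
-/

namespace Pool.Agent.Helper19.Un

/-- squared distance of two integral points -/
def gram_d (b b' : Fin 4 → ℤ) : ℝ := ∑ i, ((b i : ℝ) - b' i) ^ 2

/-- the class modulo the sublattice of vectors with all coordinates of the same parity -/
def gram_cls (b : Fin 4 → ℤ) : ZMod 2 × ZMod 2 :=
  (((b 0 + b 1 : ℤ) : ZMod 2), ((b 0 + b 2 : ℤ) : ZMod 2))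

theorem gram_var1 (S : Finset (Fin 4 → ℤ)) (f : (Fin 4 → ℤ) → ℝ) :
    ∑ b ∈ S, ∑ b' ∈ S, (f b - f b') ^ 2 = 2 * S.card * ∑ b ∈ S, f b ^ 2 - 2 * (∑ b ∈ S, f b) ^ 2 := by
  have h1 : ∀ b ∈ S, ∑ b' ∈ S, (f b - f b') ^ 2 =
      S.card * f b ^ 2 - 2 * f b * (∑ b' ∈ S, f b') + ∑ b' ∈ S, f b' ^ 2 := by
    intro b _
    have : ∀ b' ∈ S, (f b - f b') ^ 2 = f b ^ 2 - 2 * f b * f b' + f b' ^ 2 := by
      intro b' _; ring
    rw [Finset.sum_congr rfl this, Finset.sum_add_distrib, Finset.sum_sub_distrib,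
      Finset.sum_const, nsmul_eq_mul, Finset.mul_sum]
  rw [Finset.sum_congr rfl h1, Finset.sum_add_distrib, Finset.sum_sub_distrib, Finset.sum_const,
    nsmul_eq_mul, ← Finset.mul_sum, ← Finset.sum_mul, ← Finset.mul_sum]
  ring

/-- the variance inequality -/
theorem gram_var (z : Fin 4 → ℝ) (S : Finset (Fin 4 → ℤ)) :
    ∑ b ∈ S, ∑ b' ∈ S, gram_d b b' ≤ 2 * S.card * ∑ b ∈ S, sq z b := by
  have h1 : ∑ b ∈ S, ∑ b' ∈ S, gram_d b b' =
      ∑ i, (2 * S.card * ∑ b ∈ S, (z i - b i) ^ 2 - 2 * (∑ b ∈ S, (z i - b i)) ^ 2) := by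
    have : ∀ i : Fin 4, (2 * S.card * ∑ b ∈ S, (z i - b i) ^ 2 - 2 * (∑ b ∈ S, (z i - b i)) ^ 2)
        = ∑ b ∈ S, ∑ b' ∈ S, ((b i : ℝ) - b' i) ^ 2 := by
      intro i
      rw [← gram_var1 S (fun b => z i - b i)]
      refine Finset.sum_congr rfl fun b _ => Finset.sum_congr rfl fun b' _ => ?_
      ring
    have hthis : ∑ i : Fin 4, (2 * S.card * ∑ b ∈ S, (z i - b i) ^ 2 -
        2 * (∑ b ∈ S, (z i - b i)) ^ 2) = ∑ i : Fin 4, ∑ b ∈ S, ∑ b' ∈ S, ((b i : ℝ) - b' i) ^ 2 :=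
      Finset.sum_congr rfl fun i _ => this i
    rw [hthis]
    symm
    rw [Finset.sum_comm]
    refine Finset.sum_congr rfl fun b _ => ?_
    rw [Finset.sum_comm]
    rfl
  have h2 : ∑ b ∈ S, sq z b = ∑ i, ∑ b ∈ S, (z i - b i) ^ 2 := by
    unfold sq
    rw [Finset.sum_comm]
  rw [h1, h2, Finset.mul_sum]
  refine Finset.sum_le_sum fun i _ => ?_
  nlinarith [sq_nonneg (∑ b ∈ S, (z i - (b i : ℝ)))]

theorem gram_cast (b b' : Fin 4 → ℤ) : gram_d b b' = ((∑ i, (b i - b' i) ^ 2 : ℤ) : ℝ) := by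
  unfold gram_d; push_cast; rfl

theorem gram_pos {b b' : Fin 4 → ℤ} (h : b ≠ b') : 0 < ∑ i, (b i - b' i) ^ 2 := by
  rcases (Finset.sum_nonneg (fun i (_ : i ∈ Finset.univ) => sq_nonneg (b i - b' i))).lt_or_eq
    with h1 | h1
  · exact h1
  · exfalso
    apply h
    funext i
    have := (Finset.sum_eq_zero_iff_of_nonneg (fun i (_ : i ∈ Finset.univ) =>
      sq_nonneg (b i - b' i))).1 h1.symm i (Finset.mem_univ i)
    nlinarith [pow_eq_zero_iff (two_ne_zero) |>.1 this]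

theorem gram_two {b b' : Fin 4 → ℤ} (hb : Even (∑ i, b i)) (hb' : Even (∑ i, b' i))
    (h : b ≠ b') : 2 ≤ gram_d b b' := by
  rw [gram_cast]
  have h1 := gram_pos h
  have h2 : Even (∑ i, (b i - b' i) ^ 2) := by
    have h3 : (∑ i, (b i - b' i) ^ 2) = (∑ i, (b i - b' i) * (b i - b' i - 1)) + (∑ i, b i)
        - ∑ i, b' i := by
      rw [← Finset.sum_add_distrib, ← Finset.sum_sub_distrib]
      refine Finset.sum_congr rfl fun i _ => ?_
      ring
    rw [h3]
    refine (Even.add ?_ hb).sub hb'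
    refine Finset.sum_induction _ Even (fun a b ha hb => ha.add hb) (by simp) ?_
    intro i _
    exact Int.even_mul_pred_self _
  obtain ⟨k, hk⟩ := h2
  have h4 : (2 : ℤ) ≤ ∑ i, (b i - b' i) ^ 2 := by omega
  exact_mod_cast h4

theorem gram_four {b b' : Fin 4 → ℤ} (hb : Even (∑ i, b i)) (hb' : Even (∑ i, b' i))
    (h : b ≠ b') (hc : gram_cls b = gram_cls b') : 4 ≤ gram_d b b' := by
  rw [gram_cast]
  have h0 : ∃ i, b i - b' i ≠ 0 := by
    by_contra hcon
    push Not at hcon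
    exact h (funext fun i => by have := hcon i; omega)
  simp only [gram_cls, Prod.mk.injEq] at hc
  obtain ⟨c1, c2⟩ := hc
  rw [ZMod.intCast_eq_intCast_iff] at c1 c2
  have e1 : (b 0 + b 1) % 2 = (b' 0 + b' 1) % 2 := c1
  have e2 : (b 0 + b 2) % 2 = (b' 0 + b' 2) % 2 := c2
  rw [Int.even_iff] at hb hb'
  simp only [Fin.sum_univ_four] at hb hb' ⊢
  have hsq : ∀ x : ℤ, x ≠ 0 → 1 ≤ x ^ 2 := by
    intro x hx
    have : 0 < x ^ 2 := by positivity
    omega
  have hsq2 : ∀ x : ℤ, x ≠ 0 → x % 2 = 0 → 4 ≤ x ^ 2 := by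
    intro x hx h2
    obtain ⟨k, hk⟩ := Int.dvd_of_emod_eq_zero h2
    have hk0 : k ≠ 0 := by rintro rfl; simp at hk; exact hx hk
    have := hsq k hk0
    rw [hk]; nlinarith
  have h4 : (4 : ℤ) ≤ (b 0 - b' 0) ^ 2 + (b 1 - b' 1) ^ 2 + (b 2 - b' 2) ^ 2
      + (b 3 - b' 3) ^ 2 := by
    rcases Int.emod_two_eq_zero_or_one (b 0 - b' 0) with h5 | h5
    · have p1 : (b 1 - b' 1) % 2 = 0 := by omega
      have p2 : (b 2 - b' 2) % 2 = 0 := by omega
      have p3 : (b 3 - b' 3) % 2 = 0 := by omega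
      obtain ⟨i, hi⟩ := h0
      have q0 := sq_nonneg (b 0 - b' 0)
      have q1 := sq_nonneg (b 1 - b' 1)
      have q2 := sq_nonneg (b 2 - b' 2)
      have q3 := sq_nonneg (b 3 - b' 3)
      fin_cases i
      · have := hsq2 _ hi h5; simp at this; linarith
      · have := hsq2 _ hi p1; simp at this; linarith
      · have := hsq2 _ hi p2; simp at this; linarith
      · have := hsq2 _ hi p3; simp at this; linarith
    · have p0 : (b 0 - b' 0) ≠ 0 := by intro h6; rw [h6] at h5; simp at h5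
      have p1 : (b 1 - b' 1) ≠ 0 := by intro h6; omega
      have p2 : (b 2 - b' 2) ≠ 0 := by intro h6; omega
      have p3 : (b 3 - b' 3) ≠ 0 := by intro h6; omega
      linarith [hsq _ p0, hsq _ p1, hsq _ p2, hsq _ p3]
  exact_mod_cast h4

theorem gram_one (z : Fin 4 → ℝ) (S : Finset (Fin 4 → ℤ)) (hS : ∀ b ∈ S, Even (∑ i, b i))
    (hne : 0 < S.card) : (S.card : ℝ) - 1 ≤ ∑ b ∈ S, sq z b := by
  classical
  have h1 := gram_var z S
  have h2 : ∑ b ∈ S, ∑ b' ∈ S, (2 - if b = b' then (2 : ℝ) else 0) ≤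
      ∑ b ∈ S, ∑ b' ∈ S, gram_d b b' := by
    refine Finset.sum_le_sum fun b hb => Finset.sum_le_sum fun b' hb' => ?_
    split_ifs with h
    · rw [h]; simp [gram_d]
    · linarith [gram_two (hS b hb) (hS b' hb') h]
  have h3 : ∑ b ∈ S, ∑ b' ∈ S, (2 - if b = b' then (2 : ℝ) else 0) =
      2 * S.card * (S.card - 1) := by
    have : ∀ b ∈ S, ∑ b' ∈ S, (2 - if b = b' then (2 : ℝ) else 0) = 2 * S.card - 2 := by
      intro b hb
      rw [Finset.sum_sub_distrib, Finset.sum_const, nsmul_eq_mul, Finset.sum_ite_eq, if_pos hb]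
      ring
    rw [Finset.sum_congr rfl this, Finset.sum_const, nsmul_eq_mul]
    ring
  have hk : (0 : ℝ) < S.card := by exact_mod_cast hne
  have h4 : 2 * (S.card : ℝ) * (S.card - 1) ≤ 2 * S.card * ∑ b ∈ S, sq z b := by linarith
  exact le_of_mul_le_mul_left h4 (by linarith)

/-- all in one class -/
theorem gram_class (z : Fin 4 → ℝ) (S : Finset (Fin 4 → ℤ)) (hS : ∀ b ∈ S, Even (∑ i, b i))
    (hc : ∀ b ∈ S, ∀ b' ∈ S, gram_cls b = gram_cls b') :
    2 * (S.card : ℝ) - 2 ≤ ∑ b ∈ S, sq z b := by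
  classical
  rcases Nat.eq_zero_or_pos S.card with h0 | hne
  · rw [h0, Finset.card_eq_zero.1 h0]; simp
  have h1 := gram_var z S
  have h2 : ∑ b ∈ S, ∑ b' ∈ S, (4 - if b = b' then (4 : ℝ) else 0) ≤
      ∑ b ∈ S, ∑ b' ∈ S, gram_d b b' := by
    refine Finset.sum_le_sum fun b hb => Finset.sum_le_sum fun b' hb' => ?_
    split_ifs with h
    · rw [h]; simp [gram_d]
    · linarith [gram_four (hS b hb) (hS b' hb') h (hc b hb b' hb')]
  have h3 : ∑ b ∈ S, ∑ b' ∈ S, (4 - if b = b' then (4 : ℝ) else 0) =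
      4 * S.card * (S.card - 1) := by
    have : ∀ b ∈ S, ∑ b' ∈ S, (4 - if b = b' then (4 : ℝ) else 0) = 4 * S.card - 4 := by
      intro b hb
      rw [Finset.sum_sub_distrib, Finset.sum_const, nsmul_eq_mul, Finset.sum_ite_eq, if_pos hb]
      ring
    rw [Finset.sum_congr rfl this, Finset.sum_const, nsmul_eq_mul]
    ring
  have hk : (0 : ℝ) < S.card := by exact_mod_cast hne
  have h4 : 2 * (S.card : ℝ) * (2 * S.card - 2) ≤ 2 * S.card * ∑ b ∈ S, sq z b := by
    have : 2 * (S.card : ℝ) * (2 * S.card - 2) = 4 * S.card * (S.card - 1) := by ring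
    linarith
  exact le_of_mul_le_mul_left h4 (by linarith)

theorem gram_card (S : Finset (Fin 4 → ℤ)) :
    (S.card : ℝ) = ∑ c : ZMod 2 × ZMod 2, ((S.filter fun b => gram_cls b = c).card : ℝ) := by
  classical
  have := Finset.card_eq_sum_card_fiberwise (s := S) (t := Finset.univ) (f := gram_cls)
    (fun b _ => Finset.mem_univ _)
  exact_mod_cast this

theorem gram_three (z : Fin 4 → ℝ) (S : Finset (Fin 4 → ℤ)) (hS : ∀ b ∈ S, Even (∑ i, b i)) :
    2 * (S.card : ℝ) - 8 ≤ ∑ b ∈ S, sq z b := by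
  classical
  have h1 : ∑ b ∈ S, sq z b =
      ∑ c : ZMod 2 × ZMod 2, ∑ b ∈ S.filter (fun b => gram_cls b = c), sq z b :=
    (Finset.sum_fiberwise S gram_cls (fun b => sq z b)).symm
  have h2 : ∑ c : ZMod 2 × ZMod 2, (2 * ((S.filter fun b => gram_cls b = c).card : ℝ) - 2) ≤
      ∑ c : ZMod 2 × ZMod 2, ∑ b ∈ S.filter (fun b => gram_cls b = c), sq z b := by
    refine Finset.sum_le_sum fun c _ => gram_class z _ ?_ ?_
    · intro b hb
      exact hS b (Finset.mem_filter.1 hb).1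
    · intro b hb b' hb'
      rw [(Finset.mem_filter.1 hb).2, (Finset.mem_filter.1 hb').2]
  rw [Finset.sum_sub_distrib, ← Finset.mul_sum, ← gram_card, Finset.sum_const, Finset.card_univ]
    at h2
  have h3 : Fintype.card (ZMod 2 × ZMod 2) = 4 := by decide
  rw [h3] at h2
  rw [h1]
  norm_num at h2 ⊢
  linarith

theorem gram_mid (z : Fin 4 → ℝ) (S : Finset (Fin 4 → ℤ)) (hS : ∀ b ∈ S, Even (∑ i, b i))
    (hne : 0 < S.card) : 5 / 4 * (S.card : ℝ) - 2 ≤ ∑ b ∈ S, sq z b := by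
  classical
  have h1 := gram_var z S
  have h2 : ∑ b ∈ S, ∑ b' ∈ S, (2 + (if gram_cls b = gram_cls b' then (2 : ℝ) else 0)
      - if b = b' then (4 : ℝ) else 0) ≤ ∑ b ∈ S, ∑ b' ∈ S, gram_d b b' := by
    refine Finset.sum_le_sum fun b hb => Finset.sum_le_sum fun b' hb' => ?_
    by_cases h : b = b'
    · rw [if_pos h, h, if_pos rfl]; simp [gram_d]; norm_num
    · rw [if_neg h]
      split_ifs with hc
      · linarith [gram_four (hS b hb) (hS b' hb') h hc]
      · linarith [gram_two (hS b hb) (hS b' hb') h]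
  have h3 : ∑ b ∈ S, ∑ b' ∈ S, (2 + (if gram_cls b = gram_cls b' then (2 : ℝ) else 0)
      - if b = b' then (4 : ℝ) else 0) = 2 * S.card ^ 2 - 4 * S.card +
        2 * ∑ c : ZMod 2 × ZMod 2, ((S.filter fun b => gram_cls b = c).card : ℝ) ^ 2 := by
    have e1 : ∀ b ∈ S, ∑ b' ∈ S, (2 + (if gram_cls b = gram_cls b' then (2 : ℝ) else 0)
      - if b = b' then (4 : ℝ) else 0) = 2 * S.card - 4 +
        2 * ((S.filter fun b' => gram_cls b' = gram_cls b).card : ℝ) := by
      intro b hb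
      rw [Finset.sum_sub_distrib, Finset.sum_add_distrib, Finset.sum_const, nsmul_eq_mul,
        Finset.sum_ite_eq, if_pos hb]
      have : ∑ b' ∈ S, (if gram_cls b = gram_cls b' then (2 : ℝ) else 0) =
          2 * ((S.filter fun b' => gram_cls b' = gram_cls b).card : ℝ) := by
        rw [← Finset.sum_filter, Finset.sum_const, nsmul_eq_mul]
        have : (S.filter fun b' => gram_cls b = gram_cls b') =
            S.filter fun b' => gram_cls b' = gram_cls b := by
          ext x; simp [eq_comm]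
        rw [this]; ring
      rw [this]; ring
    rw [Finset.sum_congr rfl e1, Finset.sum_add_distrib, Finset.sum_const, nsmul_eq_mul,
      ← Finset.mul_sum]
    have e2 : ∑ b ∈ S, ((S.filter fun b' => gram_cls b' = gram_cls b).card : ℝ) =
        ∑ c : ZMod 2 × ZMod 2, ((S.filter fun b => gram_cls b = c).card : ℝ) ^ 2 := by
      rw [← Finset.sum_fiberwise S gram_cls]
      refine Finset.sum_congr rfl fun c _ => ?_
      have : ∀ b ∈ S.filter (fun b => gram_cls b = c),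
          ((S.filter fun b' => gram_cls b' = gram_cls b).card : ℝ) =
          ((S.filter fun b => gram_cls b = c).card : ℝ) := by
        intro b hb
        rw [(Finset.mem_filter.1 hb).2]
      rw [Finset.sum_congr rfl this, Finset.sum_const, nsmul_eq_mul]
      ring
    rw [e2]; ring
  have h5 : (S.card : ℝ) ^ 2 ≤
      4 * ∑ c : ZMod 2 × ZMod 2, ((S.filter fun b => gram_cls b = c).card : ℝ) ^ 2 := by
    have := sq_sum_le_card_mul_sum_sq (s := (Finset.univ : Finset (ZMod 2 × ZMod 2)))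
      (f := fun c => ((S.filter fun b => gram_cls b = c).card : ℝ))
    rw [← gram_card, Finset.card_univ] at this
    have h3 : Fintype.card (ZMod 2 × ZMod 2) = 4 := by decide
    rw [h3] at this
    exact_mod_cast this
  have hk : (0 : ℝ) < S.card := by exact_mod_cast hne
  have h4 : 2 * (S.card : ℝ) * (5 / 4 * S.card - 2) ≤ 2 * S.card * ∑ b ∈ S, sq z b := by
    have : 2 * (S.card : ℝ) * (5 / 4 * S.card - 2) = 2 * S.card ^ 2 - 4 * S.card
      + (S.card : ℝ) ^ 2 / 2 := by ring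
    linarith
  exact le_of_mul_le_mul_left h4 (by linarith)

theorem st_GRAM : ST_GRAM := by
  intro z S hS α l hα hl
  have hl0 : 0 ≤ l := by linarith
  rw [Finset.sum_sub_distrib, Finset.sum_const, nsmul_eq_mul, ← Finset.mul_sum]
  rcases Nat.eq_zero_or_pos S.card with h0 | hne
  · rw [h0, Finset.card_eq_zero.1 h0]
    simp only [Nat.cast_zero, zero_mul, Finset.sum_empty, mul_zero, sub_zero]
    exact le_max_of_le_left hα
  have h1 := mul_le_mul_of_nonneg_left (gram_one z S hS hne) hl0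
  have h2 := mul_le_mul_of_nonneg_left (gram_mid z S hS hne) hl0
  have h3 := mul_le_mul_of_nonneg_left (gram_three z S hS) hl0
  have hk : (1 : ℝ) ≤ S.card := by exact_mod_cast hne
  have m1 : α ≤ max α (max (4 * α - 3 * l) (8 * α - 8 * l)) := le_max_left _ _
  have m2 : 4 * α - 3 * l ≤ max α (max (4 * α - 3 * l) (8 * α - 8 * l)) :=
    (le_max_left _ _).trans (le_max_right _ _)
  have m3 : 8 * α - 8 * l ≤ max α (max (4 * α - 3 * l) (8 * α - 8 * l)) :=
    (le_max_right _ _).trans (le_max_right _ _)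
  rcases le_total (S.card : ℝ) 4 with h4 | h4
  · -- between 1 and 4
    have : (S.card : ℝ) * α - l * ∑ b ∈ S, sq z b ≤
        (4 - S.card) / 3 * α + (S.card - 1) / 3 * (4 * α - 3 * l) := by
      nlinarith
    refine this.trans ?_
    have a1 := mul_le_mul_of_nonneg_left m1 (show (0 : ℝ) ≤ (4 - S.card) / 3 by linarith)
    have a2 := mul_le_mul_of_nonneg_left m2 (show (0 : ℝ) ≤ (S.card - 1) / 3 by linarith)
    refine (add_le_add a1 a2).trans (le_of_eq ?_)
    ring
  rcases le_total (S.card : ℝ) 8 with h8 | h8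
  · have : (S.card : ℝ) * α - l * ∑ b ∈ S, sq z b ≤
        (8 - S.card) / 4 * (4 * α - 3 * l) + (S.card - 4) / 4 * (8 * α - 8 * l) := by
      nlinarith
    refine this.trans ?_
    have a1 := mul_le_mul_of_nonneg_left m2 (show (0 : ℝ) ≤ (8 - S.card) / 4 by linarith)
    have a2 := mul_le_mul_of_nonneg_left m3 (show (0 : ℝ) ≤ (S.card - 4) / 4 by linarith)
    refine (add_le_add a1 a2).trans (le_of_eq ?_)
    ring
  · refine le_trans ?_ m3
    nlinarith

end Pool.Agent.Helper19.Un
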