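import Pool.Agent.Helper19.Un.D4Stmts

set_option autoImplicit false

/-!
# T1: the cusps of type 1
-/

namespace Pool.Agent.Helper19.Un

theorem t1_three (B w : ℝ) :
    max 0 (B - 4 * (w - 2) ^ 2) + (max 0 (B - 4 * w ^ 2) + max 0 (B - 4 * (w + 2) ^ 2)) ≤
      max 0 (max B (max (2 * B - 8) (3 * B - 32))) := by
  have m0 : 0 ≤ max 0 (max B (max (2 * B - 8) (3 * B - 32))) := le_max_left _ _
  have m1 : B ≤ max 0 (max B (max (2 * B - 8) (3 * B - 32))) :=
    (le_max_left _ _).trans (le_max_right _ _)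
  have m2 : 2 * B - 8 ≤ max 0 (max B (max (2 * B - 8) (3 * B - 32))) :=
    ((le_max_left _ _).trans (le_max_right _ _)).trans (le_max_right _ _)
  have m3 : 3 * B - 32 ≤ max 0 (max B (max (2 * B - 8) (3 * B - 32))) :=
    ((le_max_right _ _).trans (le_max_right _ _)).trans (le_max_right _ _)
  have s0 := sq_nonneg w
  have s1 := sq_nonneg (w - 2)
  have s2 := sq_nonneg (w + 2)
  have s3 := sq_nonneg (w - 1)
  have s4 := sq_nonneg (w + 1)
  rcases max_choice 0 (B - 4 * (w - 2) ^ 2) with h1 | h1 <;>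
    rcases max_choice 0 (B - 4 * w ^ 2) with h2 | h2 <;>
      rcases max_choice 0 (B - 4 * (w + 2) ^ 2) with h3 | h3 <;>
        rw [h1, h2, h3]
  · linarith
  · linarith
  · linarith
  · refine le_trans ?_ m2; nlinarith
  · linarith
  · refine le_trans ?_ m2; nlinarith
  · refine le_trans ?_ m2; nlinarith
  · refine le_trans ?_ m3; nlinarith

theorem t1_n (B v : ℝ) (hB : B ≤ 768 / 25) (T : Finset ℤ) :
    ∑ n ∈ T, max 0 (B - 4 * (v + 2 * n) ^ 2) ≤
      max 0 (max B (max (2 * B - 8) (3 * B - 32))) := by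
  classical
  set n0 : ℤ := round (-v / 2) with hn0
  have hw : |v + 2 * n0| ≤ 1 := by
    have := abs_sub_round (-v / 2)
    rw [← hn0] at this
    rw [abs_le] at this ⊢
    constructor <;> linarith [this.1, this.2]
  have hle : ∑ n ∈ T, max 0 (B - 4 * (v + 2 * n) ^ 2) ≤
      ∑ n ∈ ({n0 - 1, n0, n0 + 1} : Finset ℤ), max 0 (B - 4 * (v + 2 * n) ^ 2) := by
    rw [← Finset.sum_filter_ne_zero]
    refine Finset.sum_le_sum_of_subset_of_nonneg ?_ (fun n _ _ => le_max_left _ _)
    intro n hnf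
    have hne := (Finset.mem_filter.1 hnf).2
    by_contra hmem
    simp only [Finset.mem_insert, Finset.mem_singleton, not_or] at hmem
    obtain ⟨a1, a2, a3⟩ := hmem
    apply hne
    apply max_eq_left
    have hcase : n ≤ n0 - 2 ∨ n0 + 2 ≤ n := by omega
    rw [abs_le] at hw
    rcases hcase with h | h
    · have h' : (n : ℝ) ≤ n0 - 2 := by exact_mod_cast h
      have h3 : v + 2 * n ≤ -3 := by linarith [hw.2]
      nlinarith
    · have h' : (n0 : ℝ) + 2 ≤ n := by exact_mod_cast h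
      have h3 : 3 ≤ v + 2 * n := by linarith [hw.1]
      nlinarith
  refine hle.trans ?_
  rw [Finset.sum_insert, Finset.sum_insert, Finset.sum_singleton]
  · have := t1_three B (v + 2 * n0)
    refine le_trans (le_of_eq ?_) this
    push_cast
    ring_nf
  · simp
  · simp only [Finset.mem_insert, Finset.mem_singleton, not_or]
    constructor <;> omega

theorem t1_bound (y r : ℝ) (hy : 1 ≤ y) (hr : 0 ≤ r) (hB : 0 < 96 / 5 * y - 3 * (r + y) ^ 2) :
    max 0 (max (96 / 5 * y - 3 * (r + y) ^ 2) (max (2 * (96 / 5 * y - 3 * (r + y) ^ 2) - 8)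
      (3 * (96 / 5 * y - 3 * (r + y) ^ 2) - 32))) ≤ 16 * y * (198 / 125 - 99 / 100 * r) := by
  obtain ⟨s, rfl⟩ : ∃ s, r = 8 / 5 - s := ⟨8 / 5 - r, by ring⟩
  have hs : 0 < s := by
    by_contra hcon
    push Not at hcon
    nlinarith [sq_nonneg (y - 8 / 5), mul_nonneg (show (0 : ℝ) ≤ -s by linarith)
      (show (0 : ℝ) ≤ y + 8 / 5 by linarith)]
  have hs2 : s ≤ 8 / 5 := by linarith
  have hys : 0 ≤ s * (y - 1) := mul_nonneg hs.le (by linarith)
  have e : 16 * y * (198 / 125 - 99 / 100 * (8 / 5 - s)) = 396 / 25 * y * s := by ring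
  rw [e]
  refine max_le (by positivity) (max_le ?_ (max_le ?_ ?_))
  · nlinarith [sq_nonneg (y - 8 / 5), sq_nonneg s]
  · -- quadratic form in `s`, `y`
    nlinarith [sq_nonneg (s - (96 / 5 - 96 / 25 * y) / 12), sq_nonneg (y - 313344 / 258509)]
  · nlinarith [mul_nonneg (show (0 : ℝ) ≤ 8 / 5 - s by linarith) (show (0 : ℝ) ≤ y - 1 by linarith),
      sq_nonneg (8 / 5 - s), sq_nonneg (y - 32256 / 18000),
      mul_nonneg (show (0 : ℝ) ≤ 8 / 5 - s by linarith) hs.le]

theorem t1_B (y r : ℝ) (hy : 1 ≤ y) (hr : 0 ≤ r) : 96 / 5 * y - 3 * (r + y) ^ 2 ≤ 768 / 25 := by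
  nlinarith [sq_nonneg (y - 16 / 5), mul_nonneg hr (show (0 : ℝ) ≤ y by linarith), sq_nonneg r]

theorem t1_sq_nonneg (z : Fin 4 → ℝ) (b : Fin 4 → ℤ) : 0 ≤ sq z b :=
  Finset.sum_nonneg fun _ _ => sq_nonneg _

theorem st_T1 (hG : ST_GRAM) : ST_T1 := by
  intro y z v hy G hev
  classical
  have hy0 : 0 < y := by linarith
  -- group by the first component
  rw [← Finset.sum_fiberwise_of_maps_to (t := G.image Prod.fst) (g := Prod.fst)
    (fun g hg => Finset.mem_image_of_mem _ hg)]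
  -- each fibre
  have hfib : ∀ b ∈ G.image Prod.fst,
      ∑ g ∈ G.filter (fun g => g.1 = b),
        max 0 (6 / 5 - (3 * (sq z g.1 + y) ^ 2 + 4 * (v g.1 + 2 * g.2) ^ 2) / (16 * y)) ≤
      if 0 < 96 / 5 * y - 3 * (sq z b + y) ^ 2 then 198 / 125 - 99 / 100 * sq z b else 0 := by
    intro b _
    have e1 : ∑ g ∈ G.filter (fun g => g.1 = b),
        max 0 (6 / 5 - (3 * (sq z g.1 + y) ^ 2 + 4 * (v g.1 + 2 * g.2) ^ 2) / (16 * y)) =
        ∑ n ∈ (G.filter (fun g => g.1 = b)).image Prod.snd,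
          max 0 ((96 / 5 * y - 3 * (sq z b + y) ^ 2) - 4 * (v b + 2 * n) ^ 2) / (16 * y) := by
      rw [Finset.sum_image]
      · refine Finset.sum_congr rfl fun g hg => ?_
        rw [(Finset.mem_filter.1 hg).2]
        rw [eq_div_iff (by positivity), max_mul_of_nonneg _ _ (by positivity), zero_mul]
        congr 1
        field_simp
        ring
      · intro g hg g' hg' hgg
        have h1 := (Finset.mem_filter.1 hg).2
        have h2 := (Finset.mem_filter.1 hg').2
        exact Prod.ext (h1.trans h2.symm) hgg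
    rw [e1, ← Finset.sum_div, div_le_iff₀ (by positivity)]
    refine (t1_n _ (v b) (t1_B y _ hy (t1_sq_nonneg z b)) _).trans ?_
    split_ifs with h
    · refine (t1_bound y _ hy (t1_sq_nonneg z b) h).trans (le_of_eq (by ring))
    · push Not at h
      rw [zero_mul]
      refine max_le le_rfl (max_le h (max_le ?_ ?_)) <;> linarith
  refine (Finset.sum_le_sum hfib).trans ?_
  rw [← Finset.sum_filter]
  refine (hG z _ ?_ (198 / 125) (99 / 100) (by norm_num) (by norm_num)).trans ?_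
  · intro b hb
    obtain ⟨g, hg, rfl⟩ := Finset.mem_image.1 (Finset.mem_filter.1 hb).1
    exact hev g hg
  · norm_num

end Pool.Agent.Helper19.Un
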