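import Pool.Agent.Helper19.Un.D4Stmts

set_option autoImplicit false

/-!
# GRAM4: point configurations in `D₄` with all coordinates of the same parity
-/

namespace Pool.Agent.Helper19.Un

/-- squared distance of two integral points -/
def gram4_d (b b' : Fin 4 → ℤ) : ℝ := ∑ i, ((b i : ℝ) - b' i) ^ 2

theorem gram4_var1 (S : Finset (Fin 4 → ℤ)) (f : (Fin 4 → ℤ) → ℝ) :
    ∑ b ∈ S, ∑ b' ∈ S, (f b - f b') ^ 2 = 2 * S.card * ∑ b ∈ S, f b ^ 2 - 2 * (∑ b ∈ S, f b) ^ 2 := by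
  have h1 : ∀ b ∈ S, ∑ b' ∈ S, (f b - f b') ^ 2 =
      S.card * f b ^ 2 - 2 * f b * (∑ b' ∈ S, f b') + ∑ b' ∈ S, f b' ^ 2 := by
    intro b _
    have : ∀ b' ∈ S, (f b - f b') ^ 2 = f b ^ 2 - 2 * f b * f b' + f b' ^ 2 := by
      intro b' _; ring
    rw [Finset.sum_congr rfl this, Finset.sum_add_distrib, Finset.sum_sub_distrib,
      Finset.sum_const, nsmul_eq_mul, Finset.mul_sum]
  rw [Finset.sum_congr rfl h1, Finset.sum_add_distrib, Finset.sum_sub_distrib, Finset.sum_const,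
    nsmul_eq_mul, ← Finset.mul_sum, ← Finset.sum_mul, ← Finset.mul_sum]
  ring

/-- the variance inequality -/
theorem gram4_var (z : Fin 4 → ℝ) (S : Finset (Fin 4 → ℤ)) :
    ∑ b ∈ S, ∑ b' ∈ S, gram4_d b b' ≤ 2 * S.card * ∑ b ∈ S, sq z b := by
  have h1 : ∑ b ∈ S, ∑ b' ∈ S, gram4_d b b' =
      ∑ i, (2 * S.card * ∑ b ∈ S, (z i - b i) ^ 2 - 2 * (∑ b ∈ S, (z i - b i)) ^ 2) := by
    have : ∀ i : Fin 4, (2 * S.card * ∑ b ∈ S, (z i - b i) ^ 2 - 2 * (∑ b ∈ S, (z i - b i)) ^ 2)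
        = ∑ b ∈ S, ∑ b' ∈ S, ((b i : ℝ) - b' i) ^ 2 := by
      intro i
      rw [← gram4_var1 S (fun b => z i - b i)]
      refine Finset.sum_congr rfl fun b _ => Finset.sum_congr rfl fun b' _ => ?_
      ring
    have hthis : ∑ i : Fin 4, (2 * S.card * ∑ b ∈ S, (z i - b i) ^ 2 -
        2 * (∑ b ∈ S, (z i - b i)) ^ 2) = ∑ i : Fin 4, ∑ b ∈ S, ∑ b' ∈ S, ((b i : ℝ) - b' i) ^ 2 :=
      Finset.sum_congr rfl fun i _ => this i
    rw [hthis]
    symm
    rw [Finset.sum_comm]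
    refine Finset.sum_congr rfl fun b _ => ?_
    rw [Finset.sum_comm]
    rfl
  have h2 : ∑ b ∈ S, sq z b = ∑ i, ∑ b ∈ S, (z i - b i) ^ 2 := by
    unfold sq
    rw [Finset.sum_comm]
  rw [h1, h2, Finset.mul_sum]
  refine Finset.sum_le_sum fun i _ => ?_
  nlinarith [sq_nonneg (∑ b ∈ S, (z i - (b i : ℝ)))]

theorem gram4_four {b b' : Fin 4 → ℤ} (hb : (∀ i, Even (b i)) ∨ ∀ i, Odd (b i))
    (hb' : (∀ i, Even (b' i)) ∨ ∀ i, Odd (b' i)) (h : b ≠ b') : 4 ≤ gram4_d b b' := by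
  have hcast : gram4_d b b' = ((∑ i, (b i - b' i) ^ 2 : ℤ) : ℝ) := by
    unfold gram4_d; push_cast; rfl
  rw [hcast]
  have h0 : ∃ i, b i - b' i ≠ 0 := by
    by_contra hcon
    push Not at hcon
    exact h (funext fun i => by have := hcon i; omega)
  have hsq : ∀ x : ℤ, x ≠ 0 → 1 ≤ x ^ 2 := by
    intro x hx
    have : 0 < x ^ 2 := by positivity
    omega
  have hsq2 : ∀ x : ℤ, x ≠ 0 → Even x → 4 ≤ x ^ 2 := by
    intro x hx h2
    obtain ⟨k, hk⟩ := h2
    have hk0 : k ≠ 0 := by rintro rfl; simp at hk; exact hx hk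
    have := hsq k hk0
    rw [hk]; nlinarith
  have h4 : (4 : ℤ) ≤ ∑ i, (b i - b' i) ^ 2 := by
    have hpar : (∀ i, Even (b i - b' i)) ∨ ∀ i, Odd (b i - b' i) := by
      rcases hb with hb | hb <;> rcases hb' with hb' | hb'
      · exact Or.inl fun i => (hb i).sub (hb' i)
      · exact Or.inr fun i => (hb i).sub_odd (hb' i)
      · exact Or.inr fun i => (hb i).sub_even (hb' i)
      · exact Or.inl fun i => (hb i).sub_odd (hb' i)
    rcases hpar with hp | hp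
    · obtain ⟨i, hi⟩ := h0
      exact (hsq2 _ hi (hp i)).trans
        (Finset.single_le_sum (f := fun i => (b i - b' i) ^ 2)
          (fun j _ => sq_nonneg _) (Finset.mem_univ i))
    · have hne : ∀ i, b i - b' i ≠ 0 := by
        intro i h6
        have := hp i
        rw [h6] at this
        exact (by decide : ¬ Odd (0 : ℤ)) this
      rw [Fin.sum_univ_four]
      linarith [hsq _ (hne 0), hsq _ (hne 1), hsq _ (hne 2), hsq _ (hne 3)]
  exact_mod_cast h4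

theorem st_GRAM4 : ST_GRAM4 := by
  intro z S hS _ α l hα hl
  classical
  have hl0 : 0 ≤ l := by linarith
  rw [Finset.sum_sub_distrib, Finset.sum_const, nsmul_eq_mul, ← Finset.mul_sum]
  rcases Nat.eq_zero_or_pos S.card with h0 | hne
  · rw [h0, Finset.card_eq_zero.1 h0]
    simpa using hα
  have h1 := gram4_var z S
  have h2 : ∑ b ∈ S, ∑ b' ∈ S, (4 - if b = b' then (4 : ℝ) else 0) ≤
      ∑ b ∈ S, ∑ b' ∈ S, gram4_d b b' := by
    refine Finset.sum_le_sum fun b hb => Finset.sum_le_sum fun b' hb' => ?_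
    split_ifs with h
    · rw [h]; simp [gram4_d]
    · linarith [gram4_four (hS b hb) (hS b' hb') h]
  have h3 : ∑ b ∈ S, ∑ b' ∈ S, (4 - if b = b' then (4 : ℝ) else 0) =
      4 * S.card * (S.card - 1) := by
    have : ∀ b ∈ S, ∑ b' ∈ S, (4 - if b = b' then (4 : ℝ) else 0) = 4 * S.card - 4 := by
      intro b hb
      rw [Finset.sum_sub_distrib, Finset.sum_const, nsmul_eq_mul, Finset.sum_ite_eq, if_pos hb]
      ring
    rw [Finset.sum_congr rfl this, Finset.sum_const, nsmul_eq_mul]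
    ring
  have hk : (1 : ℝ) ≤ S.card := by exact_mod_cast hne
  have h5 : 2 * (S.card : ℝ) * (2 * S.card - 2) ≤ 2 * S.card * ∑ b ∈ S, sq z b := by
    have : 2 * (S.card : ℝ) * (2 * S.card - 2) = 4 * S.card * (S.card - 1) := by ring
    linarith
  have h6 : 2 * (S.card : ℝ) - 2 ≤ ∑ b ∈ S, sq z b := le_of_mul_le_mul_left h5 (by linarith)
  have h7 := mul_le_mul_of_nonneg_left h6 hl0
  nlinarith

end Pool.Agent.Helper19.Un
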